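import Pool.Agent.H465.CG.Stm3

set_option autoImplicit false
set_option linter.unusedSectionVars false

/-! `SUnr` : the unramified characters of a totally complex field. -/

open NumberField IsDedekindDomain

namespace Pool.Agent.H894.CG

open Pool.Agent.H465.CG
open Pool.Agent.Y773 (TPos)
open Pool.Agent.Y773.G (IsPrimChar)

section
variable {K : Type} [Field K] [NumberField K]

lemma tpos [IsTotallyComplex K] (x : 𝓞 K) : TPos K x := by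
  intro σ
  exfalso
  have h := IsTotallyComplex.complexEmbedding_not_isReal (K := K) (Complex.ofRealHom.comp σ)
  apply h
  rw [ComplexEmbedding.isReal_iff]
  ext y
  simp [ComplexEmbedding.conjugate]

open Classical in
/-- the trivial character -/
noncomputable def z0 : Ideal (𝓞 K) →*₀ ℂ where
  toFun := fun 𝔞 => if 𝔞 = ⊥ then 0 else 1
  map_zero' := if_pos rfl
  map_one' := by
    rw [if_neg (by rw [Ideal.one_eq_top]; exact top_ne_bot)]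
  map_mul' := fun 𝔞 𝔟 => by
    by_cases h1 : 𝔞 = ⊥
    · rw [if_pos h1, if_pos (by rw [h1, Ideal.bot_mul]), zero_mul]
    · by_cases h2 : 𝔟 = ⊥
      · rw [if_pos h2, if_pos (by rw [h2, Ideal.mul_bot]), mul_zero]
      · have h3 : ¬ 𝔞 * 𝔟 = ⊥ := mul_ne_zero h1 h2
        rw [if_neg h1, if_neg h2, if_neg h3, mul_one]

lemma z0_one {𝔞 : Ideal (𝓞 K)} (h : 𝔞 ≠ ⊥) : z0 𝔞 = 1 := if_neg h

lemma twc_one {ζ : Ideal (𝓞 K) →*₀ ℂ} (hζ : ∀ 𝔞 ≠ ⊥, ζ 𝔞 = 1) (f : ClassGroup (𝓞 K) →* ℂˣ)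
    {𝔞 : Ideal (𝓞 K)} (h : 𝔞 ≠ ⊥) :
    twc ζ f 𝔞 = ((f (ClassGroup.mk0 ⟨𝔞, mem_nonZeroDivisors_iff_ne_zero.mpr h⟩) : ℂˣ) : ℂ) := by
  rw [twc_apply ζ f h, hζ 𝔞 h, one_mul]

lemma twc_z0 {ζ : Ideal (𝓞 K) →*₀ ℂ} (hζ : ∀ 𝔞 ≠ ⊥, ζ 𝔞 = 1) (f : ClassGroup (𝓞 K) →* ℂˣ) :
    twc ζ f = twc z0 f := by
  ext 𝔞
  by_cases h : 𝔞 = ⊥
  · rw [h, ← Ideal.zero_eq_bot, map_zero, map_zero]
  · rw [twc_one hζ f h, twc_one (fun _ h => z0_one h) f h]

lemma twc_inj : Function.Injective (twc (z0 (K := K))) := by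
  intro f g hfg
  ext c
  obtain ⟨𝔞, h𝔞⟩ := ClassGroup.mk0_surjective c
  have h0 : (𝔞 : Ideal (𝓞 K)) ≠ ⊥ := nonZeroDivisors.coe_ne_zero 𝔞
  have h1 := DFunLike.congr_fun hfg (𝔞 : Ideal (𝓞 K))
  rw [twc_one (fun _ h => z0_one h) f h0, twc_one (fun _ h => z0_one h) g h0] at h1
  rw [← h𝔞]
  exact h1

lemma twc_prim (f : ClassGroup (𝓞 K) →* ℂˣ) : IsPrimChar K ⊤ (twc z0 f) := by
  refine ⟨top_ne_bot, fun 𝔞 h => ?_, fun x hx _ _ => ?_, fun 𝔤 h1 h2 => ?_⟩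
  · rw [twc_one (fun _ h => z0_one h) f h]
    refine ⟨fun _ => ?_, fun _ => Units.ne_zero _⟩
    rw [Ideal.isCoprime_iff_sup_eq]
    exact sup_top_eq _
  · have h0 : Ideal.span {x} ≠ (⊥ : Ideal (𝓞 K)) := by
      rw [Ne, Ideal.span_singleton_eq_bot]
      exact hx
    rw [twc_one (fun _ h => z0_one h) f h0]
    have h1 : ClassGroup.mk0 ⟨Ideal.span {x}, mem_nonZeroDivisors_iff_ne_zero.mpr h0⟩ = 1 :=
      (ClassGroup.mk0_eq_one_iff _).2 ⟨⟨x, rfl⟩⟩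
    rw [h1, map_one, Units.val_one]
  · exact absurd (top_le_iff.mp (Ideal.dvd_iff_le.mp h1)) h2

lemma exists_f [IsTotallyComplex K] {χ : Ideal (𝓞 K) →*₀ ℂ} (h : IsPrimChar K ⊤ χ) :
    ∃ f : ClassGroup (𝓞 K) →* ℂˣ, χ = twc z0 f := by
  have hne : ∀ 𝔞 : Ideal (𝓞 K), 𝔞 ≠ ⊥ → χ 𝔞 ≠ 0 := by
    intro 𝔞 h𝔞
    rw [h.supp 𝔞 h𝔞, Ideal.isCoprime_iff_sup_eq]
    exact sup_top_eq _
  have hp : ∀ x : 𝓞 K, x ≠ 0 → χ (Ideal.span {x}) = 1 := fun x hx =>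
    h.ray x hx Submodule.mem_top (tpos x)
  have key : ∀ I J : nonZeroDivisors (Ideal (𝓞 K)), ClassGroup.mk0 I = ClassGroup.mk0 J →
      χ (I : Ideal (𝓞 K)) = χ (J : Ideal (𝓞 K)) := by
    intro I J hIJ
    obtain ⟨x, y, hx, hy, hxy⟩ := ClassGroup.mk0_eq_mk0_iff.1 hIJ
    have h1 := congrArg χ hxy
    rwa [map_mul, map_mul, hp x hx, hp y hy, one_mul, one_mul] at h1
  choose r hr using ClassGroup.mk0_surjective (R := 𝓞 K)
  have hr0 : ∀ c, χ (r c : Ideal (𝓞 K)) ≠ 0 := fun c => hne _ (nonZeroDivisors.coe_ne_zero _)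
  refine ⟨{ toFun := fun c => Units.mk0 (χ (r c : Ideal (𝓞 K))) (hr0 c)
            map_one' := ?_
            map_mul' := fun c d => ?_ }, ?_⟩
  · ext
    rw [Units.val_mk0, Units.val_one, key (r 1) 1 ((hr 1).trans (map_one _).symm)]
    exact map_one χ
  · ext
    rw [Units.val_mk0, Units.val_mul, Units.val_mk0, Units.val_mk0, ← map_mul]
    have h1 := key (r (c * d)) (r c * r d) (by rw [hr, map_mul, hr, hr])
    rw [h1]
    rfl
  · ext 𝔞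
    by_cases h𝔞 : 𝔞 = ⊥
    · rw [h𝔞, ← Ideal.zero_eq_bot, map_zero, map_zero]
    · rw [twc_one (fun _ h => z0_one h) _ h𝔞]
      exact key ⟨𝔞, mem_nonZeroDivisors_iff_ne_zero.mpr h𝔞⟩ _ (hr _).symm

end

theorem sUnr : SUnr := by
  classical
  intro K _ _ _
  have hc : Nat.card (ClassGroup (𝓞 K) →* ℂˣ) = Nat.card (ClassGroup (𝓞 K)) :=
    CommGroup.card_monoidHom_of_hasEnoughRootsOfUnity (ClassGroup (𝓞 K)) ℂ
  have hfin : Finite (ClassGroup (𝓞 K) →* ℂˣ) := by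
    refine Nat.finite_of_card_ne_zero ?_
    rw [hc]
    exact Nat.card_pos.ne'
  have := Fintype.ofFinite (ClassGroup (𝓞 K) →* ℂˣ)
  refine ⟨Finset.univ.image (twc z0), fun χ => ?_, ?_, fun ζ hζ χ => ?_⟩
  · rw [Finset.mem_image]
    constructor
    · rintro ⟨f, -, rfl⟩
      exact twc_prim f
    · intro h
      obtain ⟨f, hf⟩ := exists_f h
      exact ⟨f, Finset.mem_univ _, hf.symm⟩
  · rw [Finset.card_image_of_injective _ twc_inj, Finset.card_univ, ← Nat.card_eq_fintype_card, hc]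
  · rw [Finset.mem_image]
    constructor
    · rintro ⟨f, -, rfl⟩
      exact ⟨f, (twc_z0 hζ f).symm⟩
    · rintro ⟨f, rfl⟩
      exact ⟨f, Finset.mem_univ _, (twc_z0 hζ f).symm⟩

end Pool.Agent.H894.CG
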